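import Pool.Agent.helper60.XP.SpecT

/-!
# Project xp, module TAX: the function tau at the last level in the x-plane
-/

set_option autoImplicit false

open Complex Metric Set Filter Topology MeasureTheory
open V3S (UF)
open XP

noncomputable section

namespace XPT

theorem TAX : TAX_stmt := by
  intro n C A c D hG x₀ ρ r χ Ψ hS w hw
  have hsg : D.sg ≠ 0 := by
    have h0 := hG.Rpos 0
    unfold XP.Dat.sg
    exact_mod_cast h0.ne'
  have hzx : ∀ z : ℂ, D.zz (D.xx z) = z := by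
    intro z
    unfold XP.Dat.zz XP.Dat.xx
    field_simp
    ring
  have hxz : ∀ x : ℂ, D.xx (D.zz x) = x := by
    intro x
    unfold XP.Dat.zz XP.Dat.xx
    field_simp
    ring
  have hF0 : ∀ x : ℂ, D.F 0 x = x := by
    intro x
    unfold XP.Dat.F
    simp only [Function.iterate_zero, id]
    exact hxz x
  have htw : tw D Ψ χ D.K = fun w => D.zz (Ψ (D.xx (χ w))) := by
    funext v
    unfold tw
    rw [Nat.sub_self, hF0]
  set x : ℂ := D.xx (χ w) with hx
  have hχ : HasDerivAt χ (deriv χ w) w :=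
    ((hS.nat.diff w hw).differentiableAt (isOpen_ball.mem_nhds hw)).hasDerivAt
  have hxm : x ∈ ball x₀ ρ := hS.mp w hw
  have hΨ : HasDerivAt Ψ (deriv Ψ x) x :=
    ((hS.psd x hxm).differentiableAt (isOpen_ball.mem_nhds hxm)).hasDerivAt
  have h1 : HasDerivAt (fun w => D.xx (χ w)) (deriv χ w / D.sg) w := by
    unfold XP.Dat.xx
    exact (hχ.sub_const (D.b 0)).div_const D.sg
  have h2 : HasDerivAt (fun w => Ψ (D.xx (χ w))) (deriv Ψ x * (deriv χ w / D.sg)) w :=
    HasDerivAt.comp w hΨ h1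
  have h3 : HasDerivAt (fun w => D.zz (Ψ (D.xx (χ w)))) (D.sg * (deriv Ψ x * (deriv χ w / D.sg))) w := by
    unfold XP.Dat.zz
    exact (h2.const_mul D.sg).const_add (D.b 0)
  have h4 : deriv (tw D Ψ χ D.K) w = deriv Ψ x * deriv χ w := by
    rw [htw, h3.deriv]
    field_simp
  have hv : tw D Ψ χ D.K w = D.zz (Ψ x) := by rw [htw]
  have hn := hS.nat.eq w hw
  have hB : D.B x = D.sg ^ 2 * D.H (χ w) := by
    unfold XP.Dat.B
    rw [hx, hzx]
  have hBΨ : D.B (Ψ x) = D.sg ^ 2 * D.H (D.zz (Ψ x)) := rfl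
  have hHne : D.H (χ w) ≠ 0 := by
    intro h
    rw [h, mul_zero] at hn
    exact zero_ne_one hn
  unfold XPS.tau
  rw [h4, hv, hBΨ, hB]
  rw [eq_div_iff (mul_ne_zero (pow_ne_zero 2 hsg) hHne)]
  have h5 : (deriv Ψ x * deriv χ w) ^ 2 * D.H (D.zz (Ψ x)) * (D.sg ^ 2 * D.H (χ w)) =
      deriv Ψ x ^ 2 * (D.sg ^ 2 * D.H (D.zz (Ψ x))) * (deriv χ w ^ 2 * D.H (χ w)) := by ring
  rw [h5, hn, mul_one]

end XPT
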