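import Pool.Agent.helper74.XP.SpecQ
import Pool.Agent.helper25.MP.HAR
import Pool.Agent.helper92.MP.MI

set_option autoImplicit false

open Complex Metric Set Filter Topology MeasureTheory MPS PPS Pool.Agent.helper98.ILF

noncomputable section

namespace XPP

theorem XLE_int (V : Finset ℂ) (s : ℂ → ℂ) (R : ℝ) :
    IntegrableOn (fun z : ℂ => ∑ w ∈ V, s w / (z - w)) (ball (0 : ℂ) R) := by
  refine integrable_finsetSum _ fun w _ => ?_
  exact MI_pole (s w) w 0 R

/-- One pole. -/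
theorem XLE_one (V : Finset ℂ) (R : ℝ) (v : ℂ) (hv : v ∈ V) (hvR : ‖v‖ < R) :
    ∃ C > (0 : ℝ), ∀ s : ℂ → ℂ, ‖s v‖ ≤ C * ∫ z in ball (0 : ℂ) R, ‖∑ w ∈ V, s w / (z - w)‖ := by
  classical
  -- a radius
  have hex : ∃ r : ℝ, 0 < r ∧ ball v r ⊆ ball (0 : ℂ) R ∧ ∀ w ∈ V.erase v, w ∉ ball v r := by
    have h1 : (ball (0 : ℂ) R ∩ ((V.erase v : Finset ℂ) : Set ℂ)ᶜ) ∈ 𝓝 v := by
      apply Filter.inter_mem
      · exact isOpen_ball.mem_nhds (mem_ball_zero_iff.2 hvR)
      · refine ((V.erase v).finite_toSet.isClosed.isOpen_compl).mem_nhds ?_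
        simp
    obtain ⟨r, hr, hsub⟩ := Metric.mem_nhds_iff.1 h1
    refine ⟨r, hr, fun z hz => (hsub hz).1, fun w hw hwb => (hsub hwb).2 hw⟩
  obtain ⟨r, hr, hsub, hsep⟩ := hex
  set ρ : ℝ := r / 2 with hρ
  have hρ0 : 0 < ρ := by positivity
  have hρr : ρ < r := by rw [hρ]; linarith
  refine ⟨1 / (Real.pi * ρ), by positivity, ?_⟩
  intro s
  set G : ℂ → ℂ := fun z => ∑ w ∈ V, s w / (z - w) with hG
  set H : ℂ → ℂ := fun z => s v + (z - v) * ∑ w ∈ V.erase v, s w / (z - w) with hH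
  have hHd : DifferentiableOn ℂ H (ball v r) := by
    intro z hz
    apply DifferentiableAt.differentiableWithinAt
    refine (differentiableAt_const _).add ((differentiableAt_id.sub (differentiableAt_const _)).mul ?_)
    refine DifferentiableAt.fun_sum fun w hw => ?_
    refine (differentiableAt_const _).div (differentiableAt_id.sub (differentiableAt_const _)) ?_
    intro h
    have h' : z = w := by
      have : z - w = 0 := h
      linear_combination this
    exact hsep w hw (h' ▸ hz)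
  have hHv : H v = s v := by simp [hH]
  have harea := HAR_area hρ0.le hρr hHd
  rw [hHv] at harea
  have hHG : ∀ z : ℂ, z ≠ v → H z = (z - v) * G z := by
    intro z hz
    have h1 : z - v ≠ 0 := sub_ne_zero.2 hz
    simp only [hH, hG]
    rw [← Finset.add_sum_erase V (fun w => s w / (z - w)) hv, mul_add]
    congr 1
    field_simp
  have hint : IntegrableOn G (ball (0 : ℂ) R) := XLE_int V s R
  have hsub2 : ball v ρ ⊆ ball (0 : ℂ) R := (ball_subset_ball hρr.le).trans hsub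
  have hintρ : IntegrableOn (fun z => ρ * ‖G z‖) (ball v ρ) := (hint.mono_set hsub2).norm.const_mul ρ
  have hle : ∫ z in ball v ρ, ‖H z‖ ≤ ∫ z in ball v ρ, ρ * ‖G z‖ := by
    apply setIntegral_mono_on_ae
    · have h1 : ContinuousOn H (closedBall v ρ) :=
        hHd.continuousOn.mono (closedBall_subset_ball hρr)
      exact ((h1.integrableOn_compact (isCompact_closedBall v ρ)).mono_set ball_subset_closedBall).norm
    · exact hintρ
    · exact measurableSet_ball
    · have hne : ∀ᵐ z : ℂ, z ≠ v := by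
        rw [ae_iff]
        have : {a : ℂ | ¬ a ≠ v} = {v} := by ext; simp
        rw [this]
        exact measure_singleton v
      filter_upwards [hne] with z hz hzb
      rw [hHG z hz, norm_mul]
      apply mul_le_mul_of_nonneg_right _ (norm_nonneg _)
      rw [mem_ball, dist_eq_norm] at hzb
      exact hzb.le
  have hle2 : ∫ z in ball v ρ, ‖G z‖ ≤ ∫ z in ball (0 : ℂ) R, ‖G z‖ := by
    apply setIntegral_mono_set hint.norm
    · exact Eventually.of_forall fun z => norm_nonneg _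
    · exact Eventually.of_forall hsub2
  have h1 : Real.pi * ρ ^ 2 * ‖s v‖ ≤ ρ * ∫ z in ball (0 : ℂ) R, ‖G z‖ := by
    have h2 : ‖((Real.pi * ρ ^ 2 : ℝ) : ℂ) * s v‖ = Real.pi * ρ ^ 2 * ‖s v‖ := by
      rw [norm_mul, Complex.norm_real, Real.norm_of_nonneg (by positivity)]
    rw [← h2, ← harea]
    calc ‖∫ z in ball v ρ, H z‖ ≤ ∫ z in ball v ρ, ‖H z‖ := norm_integral_le_integral_norm _
      _ ≤ ∫ z in ball v ρ, ρ * ‖G z‖ := hle
      _ = ρ * ∫ z in ball v ρ, ‖G z‖ := integral_const_mul _ _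
      _ ≤ ρ * ∫ z in ball (0 : ℂ) R, ‖G z‖ := mul_le_mul_of_nonneg_left hle2 hρ0.le
  have hpi := Real.pi_pos
  have h3 : Real.pi * ρ * ‖s v‖ ≤ ∫ z in ball (0 : ℂ) R, ‖G z‖ := by
    have h4 : ρ * (Real.pi * ρ * ‖s v‖) ≤ ρ * ∫ z in ball (0 : ℂ) R, ‖G z‖ := by
      calc ρ * (Real.pi * ρ * ‖s v‖) = Real.pi * ρ ^ 2 * ‖s v‖ := by ring
        _ ≤ _ := h1
    exact le_of_mul_le_mul_left h4 hρ0
  rw [one_div, inv_mul_eq_div, le_div_iff₀ (by positivity)]
  linarith

theorem XLE : XLE_stmt := by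
  classical
  intro V R hV
  have h : ∀ v : ℂ, ∃ C : ℝ, 0 < C ∧ (v ∈ V → ∀ s : ℂ → ℂ,
      ‖s v‖ ≤ C * ∫ z in ball (0 : ℂ) R, ‖∑ w ∈ V, s w / (z - w)‖) := by
    intro v
    by_cases hv : v ∈ V
    · obtain ⟨C, hC, h⟩ := XLE_one V R v hv (hV v hv)
      exact ⟨C, hC, fun _ => h⟩
    · exact ⟨1, one_pos, fun h => absurd h hv⟩
  choose C hC0 hC using h
  refine ⟨1 + ∑ v ∈ V, C v, ?_, ?_⟩
  · have : 0 ≤ ∑ v ∈ V, C v := Finset.sum_nonneg fun v _ => (hC0 v).le
    linarith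
  · intro s v hv
    have h1 : C v ≤ 1 + ∑ v ∈ V, C v := by
      have := Finset.single_le_sum (f := C) (fun v _ => (hC0 v).le) hv
      linarith
    have h2 : 0 ≤ ∫ z in ball (0 : ℂ) R, ‖∑ w ∈ V, s w / (z - w)‖ :=
      integral_nonneg fun z => norm_nonneg _
    exact (hC v hv s).trans (mul_le_mul_of_nonneg_right h1 h2)

end XPP
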